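import Mathlib
import Pool.Agent.H31.XCE.Targets

/-!
# The cell expander, row PAR: choice of the exponent
-/

set_option autoImplicit false

open Finset Pool.Agent.H31.XCE

namespace Pool.Agent.H43.XCE

/-- choice of the exponent -/
theorem par_k (D : ℕ) (l s : ℝ) (hs : 1 ≤ s) (hsl : s ≤ l) : ∃ k : ℕ,
    8 * (2 * (D : ℝ) + 1) * l ≤ (4 * 2 ^ k) * s ∧ (4 * 2 ^ k) * s ≤ 16 * (2 * (D : ℝ) + 1) * l := by
  have hs0 : 0 < s := by linarith
  have hD : (0 : ℝ) ≤ D := Nat.cast_nonneg D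
  set x : ℝ := 2 * (2 * (D : ℝ) + 1) * l / s with hx
  have hxs : x * s = 2 * (2 * (D : ℝ) + 1) * l := by
    rw [hx]
    field_simp
  have hx1 : 1 ≤ x := by
    rw [hx, le_div_iff₀ hs0]
    nlinarith
  obtain ⟨n, h1, h2⟩ := exists_nat_pow_near hx1 (one_lt_two)
  refine ⟨n + 1, ?_, ?_⟩
  · have h3 : x * s ≤ 2 ^ (n + 1) * s := by gcongr
    linarith
  · have h3 : 2 ^ n * s ≤ x * s := by gcongr
    rw [pow_succ]
    linarith

/-- the first term -/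
theorem par_one (A κ l s S P LLQ : ℝ) (D h : ℕ) (m : ℝ) (hA : 0 < A) (hκ : 1 ≤ κ) (_hm0 : 0 ≤ m)
    (hP : P = Real.exp l) (hS : S = Real.exp s) (hl : 1 ≤ l) (hs : 1 ≤ s)
    (hm : m ≤ κ * P ^ D) (hLL : 1 / l ≤ 16 * LLQ)
    (hn1 : 8 * (2 * (D : ℝ) + 1) * l ≤ 2 * h * s) (hn2 : 2 * h * s ≤ 16 * (2 * (D : ℝ) + 1) * l)
    (hK : (64 * A ^ 2 * (16 * (2 * (D : ℝ) + 1)) ^ 2 * l ^ 3) ^ 4 ≤ S ^ 3) (hκP : 18 * κ ≤ P) :
    18 * m * P ^ D * (A ^ (2 * h) * ((4 * (h : ℝ)) ^ (2 * h) / (S * LLQ) ^ h)) ≤ 1 := by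
  have hD : (0 : ℝ) ≤ D := Nat.cast_nonneg D
  have hP0 : 0 < P := hP ▸ Real.exp_pos l
  have hS0 : 0 < S := hS ▸ Real.exp_pos s
  have hl0 : 0 < l := by linarith
  have hLL0 : 0 < LLQ := by
    have : 0 < 1 / l := by positivity
    linarith
  set b : ℝ := A ^ 2 * (4 * (h : ℝ)) ^ 2 / (S * LLQ) with hb
  have hb0 : 0 ≤ b := by positivity
  have e1 : A ^ (2 * h) * ((4 * (h : ℝ)) ^ (2 * h) / (S * LLQ) ^ h) = b ^ h := by
    have h1 : (A ^ 2 * (4 * (h : ℝ)) ^ 2) ^ h = A ^ (2 * h) * (4 * (h : ℝ)) ^ (2 * h) := by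
      rw [mul_pow, ← pow_mul, ← pow_mul]
    rw [hb, div_pow, h1, mul_div_assoc]
  have hnh : 2 * (h : ℝ) ≤ 16 * (2 * (D : ℝ) + 1) * l := by
    have h0 : (0 : ℝ) ≤ 2 * h := by positivity
    nlinarith
  have hSL : S / (16 * l) ≤ S * LLQ := by
    have : 1 / (16 * l) ≤ LLQ := by
      have h1 : 1 / (16 * l) = (1 / l) / 16 := by field_simp
      rw [h1]
      linarith
    calc S / (16 * l) = S * (1 / (16 * l)) := by ring
      _ ≤ S * LLQ := by gcongr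
  have hb1 : b ≤ 64 * A ^ 2 * (16 * (2 * (D : ℝ) + 1)) ^ 2 * l ^ 3 / S := by
    calc b ≤ A ^ 2 * (4 * (h : ℝ)) ^ 2 / (S / (16 * l)) := by
          rw [hb]
          gcongr
      _ = 64 * A ^ 2 * (2 * (h : ℝ)) ^ 2 * l / S := by
          field_simp
          ring
      _ ≤ 64 * A ^ 2 * (16 * (2 * (D : ℝ) + 1) * l) ^ 2 * l / S := by gcongr
      _ = 64 * A ^ 2 * (16 * (2 * (D : ℝ) + 1)) ^ 2 * l ^ 3 / S := by ring
  have hb2 : 64 * A ^ 2 * (16 * (2 * (D : ℝ) + 1)) ^ 2 * l ^ 3 ≤ Real.exp (3 * s / 4) := by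
    have h1 : (Real.exp (3 * s / 4)) ^ 4 = S ^ 3 := by
      rw [hS, ← Real.exp_nat_mul, ← Real.exp_nat_mul]
      congr 1
      push_cast
      ring
    rw [← h1] at hK
    exact (pow_le_pow_iff_left₀ (by positivity) (Real.exp_pos _).le (by norm_num)).1 hK
  have hb3 : b ≤ Real.exp (-(s / 4)) := by
    calc b ≤ Real.exp (3 * s / 4) / S := hb1.trans (by gcongr)
      _ = Real.exp (-(s / 4)) := by
          rw [hS, ← Real.exp_sub]
          congr 1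
          ring
  have hb4 : b ^ h ≤ Real.exp (-((2 * D + 1) * l)) := by
    calc b ^ h ≤ (Real.exp (-(s / 4))) ^ h := by gcongr
      _ = Real.exp (h * (-(s / 4))) := by rw [← Real.exp_nat_mul]
      _ ≤ Real.exp (-((2 * D + 1) * l)) := by
          apply Real.exp_le_exp.2
          linarith
  rw [e1]
  have hPD : P ^ D = Real.exp (D * l) := by rw [hP, ← Real.exp_nat_mul]
  calc 18 * m * P ^ D * b ^ h
      ≤ 18 * (κ * P ^ D) * P ^ D * Real.exp (-((2 * D + 1) * l)) := by gcongr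
    _ = 18 * κ * (Real.exp (D * l) * Real.exp (D * l) * Real.exp (-((2 * D + 1) * l))) := by
        rw [hPD]
        ring
    _ = 18 * κ * (Real.exp l)⁻¹ := by
        rw [← Real.exp_add, ← Real.exp_add, ← Real.exp_neg]
        congr 2
        ring
    _ ≤ P * (Real.exp l)⁻¹ := by gcongr
    _ = 1 := by rw [hP, mul_inv_cancel₀ (Real.exp_pos l).ne']

/-- the second term -/
theorem par_two (A κ l s S P L C : ℝ) (D n : ℕ) (m : ℝ) (hA : 0 < A) (hκ : 1 ≤ κ) (_hm0 : 0 ≤ m)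
    (hP : P = Real.exp l) (hS : S = Real.exp s) (hl : 1 ≤ l) (hs : 1 ≤ s) (hsl : s ≤ l)
    (hm : m ≤ κ * P ^ D) (hn2 : n * s ≤ 16 * (2 * (D : ℝ) + 1) * l) (hAP : A ≤ P)
    (hκP : 6 * κ ≤ P) (hP2 : 2 ≤ P) (hL0 : 0 < L) (hC : 81 * (2 * (D : ℝ) + 1) ≤ C)
    (hL : C * l ^ 2 ≤ s * Real.log L) :
    6 * m * P ^ D * (A ^ n * (S * (2 * P ^ 2)) ^ n) ≤ L := by
  have hD : (0 : ℝ) ≤ D := Nat.cast_nonneg D
  have hP0 : 0 < P := hP ▸ Real.exp_pos l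
  have hS0 : 0 < S := hS ▸ Real.exp_pos s
  have hSP : S ≤ P := by
    rw [hS, hP]
    exact Real.exp_le_exp.2 hsl
  have hn0 : (0 : ℝ) ≤ n := Nat.cast_nonneg n
  have e1 : A * (S * (2 * P ^ 2)) ≤ Real.exp (5 * l) := by
    have h1 : Real.exp (5 * l) = P ^ 5 := by
      rw [hP, ← Real.exp_nat_mul]
      norm_num
    rw [h1]
    calc A * (S * (2 * P ^ 2)) ≤ P * (P * (P * P ^ 2)) := by gcongr
      _ = P ^ 5 := by ring
  have e2 : A ^ n * (S * (2 * P ^ 2)) ^ n ≤ Real.exp (n * (5 * l)) := by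
    rw [← mul_pow, Real.exp_nat_mul]
    gcongr
  have hPD : P ^ D = Real.exp (D * l) := by rw [hP, ← Real.exp_nat_mul]
  have e3 : (2 * D + 1) * l + n * (5 * l) ≤ Real.log L := by
    have hs0 : 0 < s := by linarith
    have h1 : s * ((2 * D + 1) * l + n * (5 * l)) ≤ s * Real.log L := by
      have h2 : s * ((2 * D + 1) * l) ≤ (2 * D + 1) * l ^ 2 := by
        have : s * l ≤ l * l := by gcongr
        nlinarith
      have h3 : s * (n * (5 * l)) ≤ 80 * (2 * (D : ℝ) + 1) * l ^ 2 := by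
        calc s * (n * (5 * l)) = 5 * l * (n * s) := by ring
          _ ≤ 5 * l * (16 * (2 * (D : ℝ) + 1) * l) := by gcongr
          _ = 80 * (2 * (D : ℝ) + 1) * l ^ 2 := by ring
      have h4 : 81 * (2 * (D : ℝ) + 1) * l ^ 2 ≤ C * l ^ 2 := by gcongr
      nlinarith
    exact le_of_mul_le_mul_left h1 hs0
  calc 6 * m * P ^ D * (A ^ n * (S * (2 * P ^ 2)) ^ n)
      ≤ 6 * (κ * P ^ D) * P ^ D * Real.exp (n * (5 * l)) := by gcongr
    _ = (6 * κ) * (Real.exp (D * l) * Real.exp (D * l) * Real.exp (n * (5 * l))) := by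
        rw [hPD]
        ring
    _ ≤ Real.exp l * (Real.exp (D * l) * Real.exp (D * l) * Real.exp (n * (5 * l))) := by
        rw [← hP]
        gcongr
    _ = Real.exp ((2 * D + 1) * l + n * (5 * l)) := by
        rw [← Real.exp_add, ← Real.exp_add, ← Real.exp_add]
        congr 1
        ring
    _ ≤ Real.exp (Real.log L) := Real.exp_le_exp.2 e3
    _ = L := Real.exp_log hL0

theorem pf_PAR : T_PAR := by
  intro ε κ D hε hκ
  have hD : (0 : ℝ) ≤ D := Nat.cast_nonneg D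
  obtain ⟨A, hA⟩ : ∃ A : ℝ, A = 3 * κ / ε := ⟨_, rfl⟩
  have hA0 : 0 < A := by
    rw [hA]
    positivity
  obtain ⟨K, hK⟩ : ∃ K : ℝ, K = 64 * A ^ 2 * (16 * (2 * (D : ℝ) + 1)) ^ 2 := ⟨_, rfl⟩
  have hK0 : 0 ≤ K := by
    rw [hK]
    positivity
  obtain ⟨C, hC⟩ : ∃ C : ℝ, C = (K + 1) ^ 2 + 18 * κ + A + 81 * (2 * (D : ℝ) + 1) + 10 :=
    ⟨_, rfl⟩
  have hC1 : (K + 1) ^ 2 ≤ C := by nlinarith
  have hC2 : 18 * κ ≤ C := by nlinarith [sq_nonneg (K + 1)]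
  have hC3 : A ≤ C := by nlinarith [sq_nonneg (K + 1)]
  have hC4 : 81 * (2 * (D : ℝ) + 1) ≤ C := by nlinarith [sq_nonneg (K + 1)]
  have hC5 : 16 ≤ C := by linarith
  refine ⟨C, by linarith, ?_⟩
  intro S M L P m Q hH hm
  obtain ⟨l, hl⟩ : ∃ l : ℝ, l = Real.log P := ⟨_, rfl⟩
  obtain ⟨s, hs⟩ : ∃ s : ℝ, s = Real.log S := ⟨_, rfl⟩
  have hP0 : (0 : ℝ) < P := lt_of_lt_of_le (by linarith) hH.hP
  have hPe : (P : ℝ) = Real.exp l := by rw [hl, Real.exp_log hP0]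
  have hl1 : 1 ≤ l := by
    rw [hl, Real.le_log_iff_exp_le hP0]
    have h3 : Real.exp 1 < 2.7182818286 := Real.exp_one_lt_d9
    linarith [hH.hP]
  have hS1 : C * l ^ 4 ≤ S := by
    rw [hl]
    exact hH.hS
  have hl4 : 1 ≤ l ^ 4 := one_le_pow₀ hl1
  have hSC : C ≤ S := by nlinarith
  have hS0 : (0 : ℝ) < S := by linarith
  have hSe : (S : ℝ) = Real.exp s := by rw [hs, Real.exp_log hS0]
  have hs1 : 1 ≤ s := by
    rw [hs, Real.le_log_iff_exp_le hS0]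
    have h3 : Real.exp 1 < 2.7182818286 := Real.exp_one_lt_d9
    linarith
  have hLL : 1 / l ≤ 16 * LL Q := by
    rw [hl]
    exact hH.hL
  have hLL0 : 0 < LL Q := by
    have : 0 < 1 / l := by positivity
    linarith
  have hQ : Q.Nonempty := by
    rw [Finset.nonempty_iff_ne_empty]
    intro h
    rw [h] at hLL0
    unfold LL at hLL0
    simp at hLL0
  obtain ⟨p, hp⟩ := hQ
  have hSP : (S : ℝ) ≤ P := by
    have h1 := hH.hQ p hp
    have : S ≤ P := by omega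
    exact_mod_cast this
  have hsl : s ≤ l := by
    rw [hs, hl]
    exact Real.log_le_log hS0 hSP
  obtain ⟨k, hk1, hk2⟩ := par_k D l s hs1 hsl
  have hS1n : 1 ≤ S := by
    have : (1 : ℝ) ≤ S := by linarith
    exact_mod_cast this
  have hSLL : 1 ≤ (S : ℝ) * LL Q := by
    have h1 : 1 / (16 * l) ≤ LL Q := by
      have h1 : 1 / (16 * l) = (1 / l) / 16 := by field_simp
      rw [h1]
      linarith
    have h2 : 16 * l ≤ S := by
      have h3 : l ≤ l ^ 4 := le_self_pow₀ hl1 (by norm_num)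
      nlinarith
    calc (1 : ℝ) = 16 * l * (1 / (16 * l)) := by field_simp
      _ ≤ S * LL Q := by gcongr
  have hmP : (m : ℝ) ≤ κ * (P : ℝ) ^ D := by
    have h1 : (M : ℝ) ≤ (P : ℝ) ^ D := by exact_mod_cast hH.hMD
    calc (m : ℝ) ≤ κ * M := hm
      _ ≤ κ * (P : ℝ) ^ D := by gcongr
  have hL : C * l ^ 2 ≤ s * Real.log L := by
    rw [hl, hs]
    exact hH.hLL
  have hL0 : (0 : ℝ) < L := by
    rcases Nat.eq_zero_or_pos L with h | h
    · exfalso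
      rw [h, Nat.cast_zero, Real.log_zero, mul_zero] at hL
      have : 0 < C * l ^ 2 := by positivity
      linarith
    · exact_mod_cast h
  have hKS : (64 * A ^ 2 * (16 * (2 * (D : ℝ) + 1)) ^ 2 * l ^ 3) ^ 4 ≤ (S : ℝ) ^ 3 := by
    rw [← hK]
    have h1 : (C * l ^ 4) ^ 3 ≤ (S : ℝ) ^ 3 := by gcongr
    refine le_trans ?_ h1
    have h2 : K ^ 4 ≤ C ^ 3 := by
      calc K ^ 4 ≤ (K + 1) ^ 4 := by gcongr; linarith
        _ = ((K + 1) ^ 2) ^ 2 := by ring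
        _ ≤ C ^ 2 := by gcongr
        _ ≤ C ^ 3 := by
            apply pow_le_pow_right₀ (by linarith) (by norm_num)
    calc (K * l ^ 3) ^ 4 = K ^ 4 * l ^ 12 := by ring
      _ ≤ C ^ 3 * l ^ 12 := by gcongr
      _ = (C * l ^ 4) ^ 3 := by ring
  refine ⟨k, hS1n, hSLL, ?_⟩
  have hcast : ((2 * 2 ^ k : ℕ) : ℝ) = 2 * 2 ^ k := by push_cast; ring
  have h1 := par_one A κ l s S P (LL Q) D (2 * 2 ^ k) m hA0 hκ (Nat.cast_nonneg m) hPe hSe hl1 hs1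
    hmP hLL (by rw [hcast]; linarith) (by rw [hcast]; linarith) hKS (hC2.trans hH.hP)
  have h2 := par_two A κ l s S P L C D (4 * 2 ^ k) m hA0 hκ (Nat.cast_nonneg m) hPe hSe hl1 hs1
    hsl hmP (by push_cast; exact hk2) (hC3.trans hH.hP) (by linarith [hH.hP])
    (by linarith [hH.hP]) hL0 hC4 hL
  rw [← hA]
  have hPD0 : (0 : ℝ) < (P : ℝ) ^ D := by positivity
  rw [le_div_iff₀ hPD0]
  have e1 : 4 * (((2 * 2 ^ k : ℕ)) : ℝ) = 8 * 2 ^ k := by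
    rw [hcast]
    ring
  have e2 : 2 * (2 * 2 ^ k) = 4 * 2 ^ k := by ring
  rw [e1, e2] at h1
  have h3 := mul_le_mul_of_nonneg_left h1 hL0.le
  obtain ⟨a, ha⟩ : ∃ a : ℝ, a = A ^ (4 * 2 ^ k) := ⟨_, rfl⟩
  obtain ⟨b, hb⟩ : ∃ b : ℝ, b = (8 * 2 ^ k) ^ (4 * 2 ^ k) := ⟨_, rfl⟩
  obtain ⟨c, hc⟩ : ∃ c : ℝ, c = ((S : ℝ) * LL Q) ^ (2 * 2 ^ k) := ⟨_, rfl⟩
  obtain ⟨d, hd⟩ : ∃ d : ℝ, d = ((S : ℝ) * (2 * (P : ℝ) ^ 2)) ^ (4 * 2 ^ k) := ⟨_, rfl⟩
  rw [← ha, ← hb, ← hc] at h3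
  rw [← ha, ← hd] at h2
  rw [← ha, ← hb, ← hc, ← hd]
  have h4 : 3 * (m : ℝ) * a * ((L : ℝ) * (3 * b / c) + d) * (P : ℝ) ^ D =
      ((L : ℝ) * (18 * m * (P : ℝ) ^ D * (a * (b / c)))) / 2 +
        (6 * m * (P : ℝ) ^ D * (a * d)) / 2 := by ring
  rw [h4]
  linarith

end Pool.Agent.H43.XCE
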